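import Mathlib
import Pool.Agent.H.MP_e33ffa_co.B

namespace Pool.Agent.Results.MP_e33ffa_co.Yes

open Pool.Agent.H.MP_e33ffa_co

variable {V : Type}

/-- Snapshot number `i` of the temporal graph `G_1, ..., G_T`; edgeless for `i = 0`, `i > T`. -/
def snap {T : ℕ} (G : Fin T → SimpleGraph V) (i : ℕ) : SimpleGraph V :=
  if h : 1 ≤ i ∧ i ≤ T then G ⟨i - 1, by omega⟩ else ⊥

def Proper {k : ℕ} (H : SimpleGraph V) (c : V → Fin k) : Prop :=
  ∀ u v, H.Adj u v → c u ≠ c v

def Compatible {k : ℕ} (H : SimpleGraph V) (c c' : V → Fin k) : Prop :=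
  ∀ u v, H.Adj u v → c u ≠ c v ∧ c' u ≠ c' v ∧ c u ≠ c' v ∧ c' u ≠ c v

/-- `c 1, ..., c T` is a temporal `k`-colouring (the other values of `c` play no role). -/
def IsTemporalColouring {T : ℕ} (G : Fin T → SimpleGraph V) (k : ℕ) (c : ℕ → V → Fin k) : Prop :=
  (∀ j, 1 ≤ j → j ≤ T → Proper (snap G (j - 1) ⊔ snap G j ⊔ snap G (j + 1)) (c j)) ∧
  (∀ j, 1 ≤ j → j + 1 ≤ T → Compatible (snap G j ⊔ snap G (j + 1)) (c j) (c (j + 1)))

/-- The temporal chromatic number. -/
noncomputable def chiT {T : ℕ} (G : Fin T → SimpleGraph V) : ℕ :=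
  sInf {k | ∃ c : ℕ → V → Fin k, IsTemporalColouring G k c}

theorem snap_eq {T : ℕ} (G : Fin T → SimpleGraph V) (j : Fin T) (i : ℕ) (h : i = j.val + 1) :
    snap G i = G j := by
  subst h
  unfold snap
  rw [dif_pos ⟨by omega, by omega⟩]
  rfl

theorem upper {T : ℕ} (G : Fin T → SimpleGraph V) (hG : ∀ i, (G i).IsTree) :
    ∃ c : ℕ → V → Fin 8, IsTemporalColouring G 8 c := by
  have h2 : ∀ i, ∃ t : V → Fin 2, ∀ u v, (snap G i).Adj u v → t u ≠ t v := by
    intro i
    unfold snap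
    split_ifs with h
    · exact ⟨(hG _).coloringTwo, fun u v huv => (hG _).coloringTwo.valid huv⟩
    · exact ⟨fun _ => 0, fun u v huv => absurd huv (by simp)⟩
  choose t ht using h2
  obtain ⟨e⟩ : Nonempty ((Fin 3 → Fin 2) ≃ Fin 8) := ⟨Fintype.equivFinOfCardEq (by simp)⟩
  have key : ∀ (i j j' : ℕ) (u v : V), (snap G i).Adj u v → 1 ≤ j → 1 ≤ j' → j ≤ i + 1 →
      i ≤ j + 1 → j' ≤ i + 1 → i ≤ j' + 1 →
      e (fun m => t (j - 1 + (m.val + 2 * (j - 1)) % 3) u) ≠
        e (fun m => t (j' - 1 + (m.val + 2 * (j' - 1)) % 3) v) := by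
    intro i j j' u v huv a1 a2 a3 a4 a5 a6 he
    have := congrFun (e.injective he) ⟨i % 3, Nat.mod_lt _ (by norm_num)⟩
    have e1 : j - 1 + (i % 3 + 2 * (j - 1)) % 3 = i := by omega
    have e2 : j' - 1 + (i % 3 + 2 * (j' - 1)) % 3 = i := by omega
    simp only [e1, e2] at this
    exact ht i u v huv this
  refine ⟨fun j v => e (fun m => t (j - 1 + (m.val + 2 * (j - 1)) % 3) v), ?_, ?_⟩
  · rintro j h1 - u v ((h | h) | h) <;>
      exact key _ j j u v h h1 h1 (by omega) (by omega) (by omega) (by omega)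
  · rintro j h1 - u v (h | h) <;>
      exact ⟨key _ _ _ u v h h1 h1 (by omega) (by omega) (by omega) (by omega),
        key _ _ _ u v h (by omega) (by omega) (by omega) (by omega) (by omega) (by omega),
        key _ _ _ u v h (by omega) (by omega) (by omega) (by omega) (by omega) (by omega),
        key _ _ _ u v h (by omega) (by omega) (by omega) (by omega) (by omega) (by omega)⟩

theorem cp_of (G : Fin 6 → SimpleGraph V) (k : ℕ) (hk : k ≤ 6) (c : ℕ → V → Fin k)
    (hc : IsTemporalColouring G k c) (j : Fin 6) (u v : V) (huv : (G j).Adj u v) :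
    Cp j (fun i => Fin.castLE hk (c (i.val + 1) u)) (fun i => Fin.castLE hk (c (i.val + 1) v)) := by
  intro i i' a1 a2 a3 a4 a5 a6 he
  have he' := Fin.castLE_injective hk he
  have cmp : ∀ n, 1 ≤ n → n + 1 ≤ 6 → n ≤ j.val + 1 → j.val ≤ n →
      (snap G n ⊔ snap G (n + 1)).Adj u v := by
    intro n _ _ _ _
    by_cases h : n = j.val + 1
    · left; rw [snap_eq G j n h]; exact huv
    · right; rw [snap_eq G j (n + 1) (by omega)]; exact huv
  rcases lt_trichotomy i.val i'.val with h | h | h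
  · have e : i'.val + 1 = i.val + 1 + 1 := by omega
    rw [e] at he'
    exact (hc.2 (i.val + 1) (by omega) (by omega) u v
      (cmp _ (by omega) (by omega) (by omega) (by omega))).2.2.1 he'
  · rw [← h] at he'
    refine hc.1 (i.val + 1) (by omega) (by omega) u v ?_ he'
    rcases lt_trichotomy i.val j.val with h' | h' | h'
    · right; rw [snap_eq G j _ (by omega)]; exact huv
    · left; right; rw [snap_eq G j _ (by omega)]; exact huv
    · left; left; rw [snap_eq G j _ (by omega)]; exact huv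
  · have e : i.val + 1 = i'.val + 1 + 1 := by omega
    rw [e] at he'
    exact (hc.2 (i'.val + 1) (by omega) (by omega) u v
      (cmp _ (by omega) (by omega) (by omega) (by omega))).2.2.2 he'

theorem result : ∃ (V : Type) (_ : Finite V) (T : ℕ) (G : Fin T → SimpleGraph V),
    (∀ i, (G i).IsTree) ∧ (chiT G = 7 ∨ chiT G = 8) := by
  obtain ⟨S, hS⟩ := no_valid
  refine ⟨S.V, S.fin, 6, S.G, S.isTree, ?_⟩
  have h8 : 8 ∈ {k | ∃ c : ℕ → S.V → Fin k, IsTemporalColouring S.G k c} := upper S.G S.isTree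
  have hle : chiT S.G ≤ 8 := Nat.sInf_le h8
  have hge : ¬ chiT S.G ≤ 6 := by
    intro hk
    obtain ⟨c, hc⟩ := Nat.sInf_mem ⟨8, h8⟩
    exact hS _ (fun j v hv => cp_of S.G _ hk c hc j v _ (S.adj j v hv))
  omega

end Pool.Agent.Results.MP_e33ffa_co.Yes
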